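import Pool.Agent.Lib_helper88.AC.Defs

/-!
# Vanishing cycles: definitions
-/

set_option autoImplicit false

namespace Pool.Agent.VC

open Matrix Pool.Agent.TT Pool.Agent.TB

/-- The element `s` acts by the Picard–Lefschetz formula to first order in `L`, with the vanishing
cycle `v`, for the bilinear form `Q`: `X(s) = 1 + L (A, B; C, D)`, where `A` (of size `y × y`), `B`,
`C`, `D` are integral, `C` is congruent to zero and `A x` is congruent to `Q(v, x) v` for all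
integral vectors `x`, modulo the maximal ideal. -/
def PicardLefschetz {G : Type} {p : ℕ} [Fact p.Prime] {y m : ℕ}
    (X : G → Matrix (Fin y ⊕ Fin m) (Fin y ⊕ Fin m) ℂ_[p]) (L : ℂ_[p])
    (Q : Matrix (Fin y) (Fin y) ℂ_[p]) (s : G) (v : Fin y → ℂ_[p]) : Prop :=
  ∃ N : Matrix (Fin y ⊕ Fin m) (Fin y ⊕ Fin m) ℂ_[p], X s = 1 + L • N ∧ (∀ i k, ‖N i k‖ ≤ 1) ∧
    (∀ i k, ‖N.toBlocks₂₁ i k‖ < 1) ∧ ∀ x : Fin y → ℂ_[p], (∀ i, ‖x i‖ ≤ 1) →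
      ∀ i, ‖(N.toBlocks₁₁ *ᵥ x - (v ⬝ᵥ (Q *ᵥ x)) • v) i‖ < 1

/-- There are a symmetric bilinear form `Q` on `O ^ y`, `O` the ring of integers of `ℂ_[p]`, whose
determinant is a unit, finitely many elements `s_i` and vectors `v_i` of `O ^ y` such that each `s_i`
acts by the Picard–Lefschetz formula with the vanishing cycle `v_i`, the `v_i` span `O ^ y` modulo
the maximal ideal, and the graph with the vertices `v_i`, in which `v_i` and `v_k` are joined if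
`Q(v_i, v_k)` is a unit, is connected. -/
def VanishingCycles {G : Type} {p : ℕ} [Fact p.Prime] {y m : ℕ}
    (X : G → Matrix (Fin y ⊕ Fin m) (Fin y ⊕ Fin m) ℂ_[p]) (L : ℂ_[p]) : Prop :=
  ∃ (Q : Matrix (Fin y) (Fin y) ℂ_[p]) (r : ℕ) (s : Fin r → G) (v : Fin r → Fin y → ℂ_[p]),
    (Qᵀ = Q ∧ (∀ a b, ‖Q a b‖ ≤ 1) ∧ ‖Q.det‖ = 1) ∧ (∀ i a, ‖v i a‖ ≤ 1) ∧
      (∀ i, PicardLefschetz X L Q (s i) (v i)) ∧
      (∀ x : Fin y → ℂ_[p], (∀ a, ‖x a‖ ≤ 1) → ∃ c : Fin r → ℂ_[p], (∀ i, ‖c i‖ ≤ 1) ∧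
        ∀ a, ‖(x - ∑ i, c i • v i) a‖ < 1) ∧
      ∀ J : Set (Fin r), J.Nonempty → Jᶜ.Nonempty → ∃ i ∈ J, ∃ k ∈ Jᶜ, ‖v i ⬝ᵥ (Q *ᵥ v k)‖ = 1

/-- No open subgroup `H` of the Galois group acts trivially on a nonzero subquotient `W₂ / W₁` of
the twist `V(j)` of the representation `ρ` on `V`. -/
def NoTateClasses {K : Type} [Field K] [Algebra K Qbar] {ℓ : ℕ} [Fact ℓ.Prime] {V : Type}
    [AddCommGroup V] [Module (PadicAlgCl ℓ) V]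
    (ρ : Representation (PadicAlgCl ℓ) (Qbar ≃ₐ[K] Qbar) V) (j : ℕ) : Prop :=
  ∀ H : Subgroup (Qbar ≃ₐ[K] Qbar), IsOpen (H : Set (Qbar ≃ₐ[K] Qbar)) →
    ∀ W₁ W₂ : Submodule (PadicAlgCl ℓ) V, W₁ ≤ W₂ →
      (∀ σ ∈ H, ∀ x ∈ W₂, cyc ℓ σ ^ j • ρ σ x - x ∈ W₁) → W₁ = W₂

end Pool.Agent.VC
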