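import Mathlib.LinearAlgebra.Matrix.ToLin
import Mathlib.LinearAlgebra.Matrix.NonsingularInverse
import Mathlib.LinearAlgebra.Dual.Lemmas
import Mathlib.LinearAlgebra.Matrix.Nondegenerate
import Mathlib.LinearAlgebra.Matrix.DotProduct
import Mathlib.Tactic

/-!
# Connected systems of rank one operators

Let `Q` be a nondegenerate symmetric form on `k ^ y`, `y ≥ 2`, `2 ≠ 0` in `k`, and let the vectors
`v_i` span the space and be connected by `Q(v_i, v_k) ≠ 0`. Put `X_i(x) = Q(v_i, x) v_i`. Then a sum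
of operators `[X_i, [X_i, X_k]]` is invertible.
-/

set_option autoImplicit false
set_option linter.unusedSectionVars false

namespace Pool.Agent.VC

open Matrix

variable {k : Type*} [Field k] {n : Type*} [Fintype n] [DecidableEq n]

/-- The double commutator. -/
def comm2 {R : Type*} [Ring R] (A B : R) : R := A * (A * B - B * A) - (A * B - B * A) * A

theorem vmv_mulVec (a b x : n → k) : vecMulVec a b *ᵥ x = (b ⬝ᵥ x) • a := by
  ext i
  simp only [mulVec, dotProduct, vecMulVec_apply, Pi.smul_apply, smul_eq_mul, Finset.sum_mul]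
  exact Finset.sum_congr rfl fun j _ => by ring

/-- The product of two operators of rank one. -/
theorem rank_one_mul (Q : Matrix n n k) (a b c d : n → k) :
    (vecMulVec a b * Q) * (vecMulVec c d * Q) = (b ⬝ᵥ (Q *ᵥ c)) • (vecMulVec a d * Q) := by
  have h : vecMulVec a b * Q * vecMulVec c d = (b ⬝ᵥ (Q *ᵥ c)) • vecMulVec a d := by
    rw [mul_assoc, mul_vecMulVec, vecMulVec_mul_vecMulVec]
    ext i j
    simp only [vecMulVec_apply, Pi.smul_apply, Matrix.smul_apply, smul_eq_mul]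
    ring
  rw [← mul_assoc, h, smul_mul_assoc]

theorem form_symm (Q : Matrix n n k) (hQ : Qᵀ = Q) (a b : n → k) :
    a ⬝ᵥ (Q *ᵥ b) = b ⬝ᵥ (Q *ᵥ a) := by
  rw [dotProduct_mulVec, ← mulVec_transpose, hQ, dotProduct_comm]

/-- The symmetric matrix of the double commutator. -/
def dcm (Q : Matrix n n k) (u v : n → k) : Matrix n n k :=
  (u ⬝ᵥ (Q *ᵥ v)) • ((u ⬝ᵥ (Q *ᵥ u)) • (vecMulVec u v + vecMulVec v u) -
    (2 * (u ⬝ᵥ (Q *ᵥ v))) • vecMulVec u u)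

theorem comm2_eq (Q : Matrix n n k) (hQ : Qᵀ = Q) (u v : n → k) :
    comm2 (vecMulVec u u * Q) (vecMulVec v v * Q) = dcm Q u v * Q := by
  have h1 : v ⬝ᵥ (Q *ᵥ u) = u ⬝ᵥ (Q *ᵥ v) := form_symm Q hQ v u
  rw [comm2, dcm]
  simp only [rank_one_mul, mul_sub, sub_mul, mul_smul_comm, smul_mul_assoc, add_mul, h1,
    smul_sub, smul_add, smul_smul]
  module

theorem dcm_symm (Q : Matrix n n k) (u v : n → k) : (dcm Q u v)ᵀ = dcm Q u v := by
  simp only [dcm, transpose_smul, transpose_sub, transpose_add, transpose_vecMulVec]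
  rw [add_comm (vecMulVec v u)]

theorem dcm_mulVec (Q : Matrix n n k) (u v x : n → k) :
    dcm Q u v *ᵥ x = ((u ⬝ᵥ (Q *ᵥ v)) * ((u ⬝ᵥ (Q *ᵥ u)) * (v ⬝ᵥ x) -
      2 * (u ⬝ᵥ (Q *ᵥ v)) * (u ⬝ᵥ x))) • u +
      ((u ⬝ᵥ (Q *ᵥ v)) * ((u ⬝ᵥ (Q *ᵥ u)) * (u ⬝ᵥ x))) • v := by
  rw [dcm]
  simp only [smul_mulVec, sub_mulVec, add_mulVec, vmv_mulVec, smul_sub, smul_add, smul_smul]
  module

/-- A vector that is orthogonal to the kernel of a symmetric matrix is in its range. -/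
theorem exists_preimage (T : Matrix n n k) (hT : Tᵀ = T) (w : n → k)
    (hw : ∀ z, T *ᵥ z = 0 → w ⬝ᵥ z = 0) : ∃ a, T *ᵥ a = w := by
  let φ : Module.Dual k (n → k) :=
    { toFun := fun x => w ⬝ᵥ x
      map_add' := fun x y => dotProduct_add w x y
      map_smul' := fun c x => dotProduct_smul c w x }
  have hφ : φ ∈ (LinearMap.ker (Matrix.mulVecLin T)).dualAnnihilator := by
    rw [Submodule.mem_dualAnnihilator]
    intro z hz
    exact hw z hz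
  rw [← LinearMap.range_dualMap_eq_dualAnnihilator_ker] at hφ
  obtain ⟨ψ, hψ⟩ := hφ
  refine ⟨fun i => ψ (Pi.single i 1), ?_⟩
  have h1 : ∀ x : n → k, ψ x = (fun i => ψ (Pi.single i 1)) ⬝ᵥ x := by
    intro x
    conv_lhs => rw [← Finset.univ_sum_single x]
    rw [map_sum]
    simp only [dotProduct]
    refine Finset.sum_congr rfl fun i _ => ?_
    have h2 : (Pi.single i (x i) : n → k) = x i • Pi.single i (1 : k) := by
      rw [← Pi.single_smul, smul_eq_mul, mul_one]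
    rw [h2, map_smul, smul_eq_mul, mul_comm]
  have h3 : ∀ x : n → k, w ⬝ᵥ x = (T *ᵥ fun i => ψ (Pi.single i 1)) ⬝ᵥ x := by
    intro x
    have h4 : w ⬝ᵥ x = ψ (T *ᵥ x) := by
      have h5 := congrArg (fun f => f x) hψ
      exact h5.symm
    rw [h4, h1, dotProduct_mulVec, ← mulVec_transpose, hT]
  exact dotProduct_eq_iff.mp fun x => (h3 x).symm

/-- The kernel becomes smaller. -/
theorem ker_step (T : Matrix n n k) (hT : Tᵀ = T) (Q : Matrix n n k) (u v a : n → k)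
    (ha : T *ᵥ a = u) (hv : ∀ x, T *ᵥ x ≠ v) (c : k) (hc : c ≠ 0)
    (hq : v ⬝ᵥ (Q *ᵥ u) ≠ 0)
    (h : c * (v ⬝ᵥ (Q *ᵥ u)) * (v ⬝ᵥ (Q *ᵥ v)) ^ 2 * (u ⬝ᵥ a) + 2 * (v ⬝ᵥ (Q *ᵥ u)) ≠ 0)
    (x : n → k) (hx : (T + c • dcm Q v u) *ᵥ x = 0) : T *ᵥ x = 0 ∧ v ⬝ᵥ x = 0 := by
  rw [add_mulVec, smul_mulVec, dcm_mulVec] at hx
  set q := v ⬝ᵥ (Q *ᵥ u) with hqdef
  set α := v ⬝ᵥ (Q *ᵥ v) with hα
  have h1 : T *ᵥ (x + (c * (q * (α * (v ⬝ᵥ x)))) • a) +
      (c * (q * (α * (u ⬝ᵥ x) - 2 * q * (v ⬝ᵥ x)))) • v = 0 := by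
    rw [mulVec_add, mulVec_smul, ha, ← hx]
    module
  have h2 : c * (q * (α * (u ⬝ᵥ x) - 2 * q * (v ⬝ᵥ x))) = 0 := by
    by_contra h3
    apply hv (-(c * (q * (α * (u ⬝ᵥ x) - 2 * q * (v ⬝ᵥ x))))⁻¹ •
      (x + (c * (q * (α * (v ⬝ᵥ x)))) • a))
    rw [mulVec_smul, eq_neg_of_add_eq_zero_left h1, smul_neg, neg_smul, neg_neg, smul_smul,
      inv_mul_cancel₀ h3, one_smul]
  rw [h2, zero_smul, add_zero, mulVec_add, mulVec_smul, ha] at h1
  have h3 : u ⬝ᵥ x = -(c * (q * (α * (v ⬝ᵥ x)))) * (u ⬝ᵥ a) := by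
    have h4 : u ⬝ᵥ x = a ⬝ᵥ (T *ᵥ x) := by
      rw [dotProduct_mulVec, ← mulVec_transpose, hT, ha]
    rw [h4, eq_neg_of_add_eq_zero_left h1, dotProduct_neg, dotProduct_smul, smul_eq_mul,
      dotProduct_comm a u]
    ring
  have h5 : (v ⬝ᵥ x) * (c * q * α ^ 2 * (u ⬝ᵥ a) + 2 * q) = 0 := by
    rcases mul_eq_zero.mp h2 with h6 | h6
    · exact absurd h6 hc
    · rcases mul_eq_zero.mp h6 with h7 | h7
      · exact absurd h7 hq
      · rw [h3] at h7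
        linear_combination -h7
  rcases mul_eq_zero.mp h5 with h6 | h6
  · refine ⟨?_, h6⟩
    rw [h6] at h1
    simpa using h1
  · exact absurd h6 h

/-- The induction. -/
theorem grow (Q : Matrix n n k) {ι : Type*} [Fintype ι] (v : ι → n → k) (h2 : (2 : k) ≠ 0)
    (hspan : ∀ z, (∀ i, v i ⬝ᵥ z = 0) → z = 0)
    (hconn : ∀ J : Set ι, J.Nonempty → Jᶜ.Nonempty → ∃ i ∈ J, ∃ l ∈ Jᶜ,
      v l ⬝ᵥ (Q *ᵥ v i) ≠ 0)
    (W : AddSubmonoid (Matrix n n k)) (hW : ∀ i l, dcm Q (v i) (v l) * Q ∈ W) (N : ℕ) :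
    ∀ T : Matrix n n k, Tᵀ = T → T * Q ∈ W →
      {i | ∀ z, T *ᵥ z = 0 → v i ⬝ᵥ z = 0}.Nonempty →
      Nat.card {i | ¬ ∀ z, T *ᵥ z = 0 → v i ⬝ᵥ z = 0} ≤ N →
        ∃ T' : Matrix n n k, T' * Q ∈ W ∧ T'.det ≠ 0 := by
  classical
  induction N with
  | zero =>
    intro T hT hTW hne hcard
    refine ⟨T, hTW, ?_⟩
    intro hdet
    obtain ⟨z, hz0, hz⟩ := Matrix.exists_mulVec_eq_zero_iff.mpr hdet
    apply hz0
    apply hspan
    intro i
    by_contra hi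
    have h1 : Nat.card {i | ¬ ∀ z, T *ᵥ z = 0 → v i ⬝ᵥ z = 0} ≠ 0 := by
      rw [Nat.card_ne_zero]
      exact ⟨⟨⟨i, fun h => hi (h z hz)⟩⟩, inferInstance⟩
    omega
  | succ N ih =>
    intro T hT hTW hne hcard
    by_cases hJ : ({i | ∀ z, T *ᵥ z = 0 → v i ⬝ᵥ z = 0}ᶜ).Nonempty
    · obtain ⟨i, hi, l, hl, hq⟩ := hconn _ hne hJ
      obtain ⟨a, ha⟩ := exists_preimage T hT (v i) hi
      have hv : ∀ x, T *ᵥ x ≠ v l := by
        intro x hx
        apply hl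
        intro z hz
        rw [← hx, dotProduct_comm, dotProduct_mulVec, ← mulVec_transpose, hT, hz,
          zero_dotProduct]
      -- the choice of the coefficient
      obtain ⟨c, hc, hcne, hcn⟩ : ∃ c : ℕ, 0 < c ∧ ((c : ℕ) : k) ≠ 0 ∧
          ((c : ℕ) : k) * (v l ⬝ᵥ (Q *ᵥ v i)) * (v l ⬝ᵥ (Q *ᵥ v l)) ^ 2 * (v i ⬝ᵥ a) +
            2 * (v l ⬝ᵥ (Q *ᵥ v i)) ≠ 0 := by
        by_cases h1 : ((1 : ℕ) : k) * (v l ⬝ᵥ (Q *ᵥ v i)) * (v l ⬝ᵥ (Q *ᵥ v l)) ^ 2 *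
            (v i ⬝ᵥ a) + 2 * (v l ⬝ᵥ (Q *ᵥ v i)) = 0
        · refine ⟨2, two_pos, by exact_mod_cast h2, fun h3 => ?_⟩
          have h4 : 2 * (v l ⬝ᵥ (Q *ᵥ v i)) = 0 := by
            push_cast at h1 h3
            linear_combination 2 * h1 - h3
          rcases mul_eq_zero.mp h4 with h5 | h5
          · exact h2 h5
          · exact hq h5
        · exact ⟨1, one_pos, by simp, h1⟩
      have hker := ker_step T hT Q (v i) (v l) a ha hv c hcne hq hcn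
      apply ih (T + (c : k) • dcm Q (v l) (v i))
      · rw [transpose_add, transpose_smul, dcm_symm, hT]
      · rw [add_mul, smul_mul_assoc, Nat.cast_smul_eq_nsmul]
        exact W.add_mem hTW (W.nsmul_mem (hW l i) c)
      · obtain ⟨i', hi'⟩ := hne
        exact ⟨i', fun z hz => hi' z (hker z hz).1⟩
      · have h3 : {i' | ¬ ∀ z, (T + (c : k) • dcm Q (v l) (v i)) *ᵥ z = 0 → v i' ⬝ᵥ z = 0} ⊂
            {i' | ¬ ∀ z, T *ᵥ z = 0 → v i' ⬝ᵥ z = 0} := by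
          refine (Set.ssubset_iff_of_subset ?_).mpr ⟨l, hl, fun h => h fun z hz => (hker z hz).2⟩
          intro i' hi' h
          exact hi' fun z hz => h z (hker z hz).1
        have h4 := Set.ncard_lt_ncard h3 (Set.toFinite _)
        rw [← Nat.card_coe_set_eq, ← Nat.card_coe_set_eq] at h4
        omega
    · apply ih T hT hTW hne
      rw [Set.not_nonempty_iff_eq_empty] at hJ
      have h1 : {i | ¬ ∀ z, T *ᵥ z = 0 → v i ⬝ᵥ z = 0} = ∅ := hJ
      rw [h1]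
      simp


/-- Two connected vectors that are linearly independent. -/
theorem start {y : ℕ} (hy : 2 ≤ y) (Q : Matrix (Fin y) (Fin y) k) {ι : Type*} [Fintype ι]
    (v : ι → Fin y → k)
    (hspan : ∀ z, (∀ i, v i ⬝ᵥ z = 0) → z = 0)
    (hconn : ∀ J : Set ι, J.Nonempty → Jᶜ.Nonempty → ∃ i ∈ J, ∃ l ∈ Jᶜ,
      v l ⬝ᵥ (Q *ᵥ v i) ≠ 0) :
    ∃ i l, v l ⬝ᵥ (Q *ᵥ v i) ≠ 0 ∧ ∀ a b : k, a • v i + b • v l = 0 → a = 0 ∧ b = 0 := by
  -- a nonzero vector
  obtain ⟨i₀, hi₀⟩ : ∃ i, v i ≠ 0 := by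
    by_contra h
    push Not at h
    have h1 : (Pi.single ⟨0, by omega⟩ 1 : Fin y → k) = 0 :=
      hspan _ fun i => by rw [h i, zero_dotProduct]
    have h2 := congrFun h1 ⟨0, by omega⟩
    rw [Pi.single_eq_same] at h2
    exact one_ne_zero h2
  -- its line does not contain all of them
  have hJ : ({i | ∃ c : k, v i = c • v i₀}ᶜ).Nonempty := by
    rw [Set.nonempty_iff_ne_empty]
    intro h
    have h1 : ∀ i, ∃ c : k, v i = c • v i₀ := by
      intro i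
      by_contra hi
      have h2 : i ∈ ({i | ∃ c : k, v i = c • v i₀}ᶜ) := hi
      rw [h] at h2
      exact h2
    -- a vector that is orthogonal to the line
    obtain ⟨u, hu, huv⟩ : ∃ u : Fin y → k, u ≠ 0 ∧ v i₀ ⬝ᵥ u = 0 := by
      by_cases h0 : v i₀ ⟨0, by omega⟩ = 0
      · refine ⟨Pi.single ⟨0, by omega⟩ 1, ?_, ?_⟩
        · intro h3
          have h4 := congrFun h3 ⟨0, by omega⟩
          rw [Pi.single_eq_same] at h4
          exact one_ne_zero h4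
        · rw [dotProduct_single, mul_one, h0]
      · refine ⟨Pi.single ⟨0, by omega⟩ (-(v i₀ ⟨1, by omega⟩)) +
          Pi.single ⟨1, by omega⟩ (v i₀ ⟨0, by omega⟩), ?_, ?_⟩
        · intro h3
          have h4 := congrFun h3 ⟨1, by omega⟩
          rw [Pi.add_apply, Pi.single_eq_same, Pi.single_eq_of_ne (by simp), zero_add] at h4
          exact h0 h4
        · rw [dotProduct_add, dotProduct_single, dotProduct_single]
          ring
    apply hu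
    apply hspan
    intro i
    obtain ⟨c, hc⟩ := h1 i
    rw [hc, smul_dotProduct, huv, smul_zero]
  obtain ⟨i, ⟨c, hc⟩, l, hl, hq⟩ := hconn {i | ∃ c : k, v i = c • v i₀}
    ⟨i₀, 1, (one_smul k _).symm⟩ hJ
  refine ⟨i, l, hq, ?_⟩
  have hvi : v i ≠ 0 := by
    intro h
    rw [h, mulVec_zero, dotProduct_zero] at hq
    exact hq rfl
  intro a b hab
  have hb : b = 0 := by
    by_contra hb
    apply hl
    refine ⟨-(b⁻¹ * (a * c)), ?_⟩
    have h1 : v l = b⁻¹ • (b • v l) := by rw [smul_smul, inv_mul_cancel₀ hb, one_smul]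
    rw [h1, eq_neg_of_add_eq_zero_right hab, hc]
    module
  refine ⟨?_, hb⟩
  rw [hb, zero_smul, add_zero] at hab
  rcases smul_eq_zero.mp hab with h | h
  · exact h
  · exact absurd h hvi

/-- **Connected systems.** -/
theorem connected {y : ℕ} (hy : y ≠ 1) (Q : Matrix (Fin y) (Fin y) k) (hQs : Qᵀ = Q)
    (hQd : Q.det ≠ 0) {ι : Type*} [Fintype ι]
    (v : ι → Fin y → k) (h2 : (2 : k) ≠ 0)
    (hspan : ∀ z, (∀ i, v i ⬝ᵥ z = 0) → z = 0)
    (hconn : ∀ J : Set ι, J.Nonempty → Jᶜ.Nonempty → ∃ i ∈ J, ∃ l ∈ Jᶜ,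
      v i ⬝ᵥ (Q *ᵥ v l) ≠ 0)
    (W : AddSubmonoid (Matrix (Fin y) (Fin y) k))
    (hW : ∀ i l, comm2 (vecMulVec (v i) (v i) * Q) (vecMulVec (v l) (v l) * Q) ∈ W) :
    ∃ A ∈ W, A.det ≠ 0 := by
  rcases Nat.eq_zero_or_pos y with h0 | h0
  · subst h0
    exact ⟨0, W.zero_mem, by simp⟩
  have hy2 : 2 ≤ y := by omega
  have hconn' : ∀ J : Set ι, J.Nonempty → Jᶜ.Nonempty → ∃ i ∈ J, ∃ l ∈ Jᶜ,
      v l ⬝ᵥ (Q *ᵥ v i) ≠ 0 := by
    intro J h1 h3
    obtain ⟨i, hi, l, hl, h⟩ := hconn J h1 h3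
    exact ⟨i, hi, l, hl, by rw [form_symm Q hQs]; exact h⟩
  have hW' : ∀ i l, dcm Q (v i) (v l) * Q ∈ W := by
    intro i l
    rw [← comm2_eq Q hQs]
    exact hW i l
  obtain ⟨i, l, hq, hind⟩ := start hy2 Q v hspan hconn'
  have hbase : ∀ z, dcm Q (v l) (v i) *ᵥ z = 0 → v l ⬝ᵥ z = 0 := by
    intro z hz
    rw [dcm_mulVec, add_comm] at hz
    obtain ⟨h3, h4⟩ := hind _ _ hz
    rcases mul_eq_zero.mp h3 with h5 | h5
    · exact absurd h5 hq
    rcases mul_eq_zero.mp h5 with h6 | h6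
    · rw [h6, zero_mul, zero_sub] at h4
      rcases mul_eq_zero.mp h4 with h7 | h7
      · exact absurd h7 hq
      · rw [neg_eq_zero] at h7
        rcases mul_eq_zero.mp h7 with h8 | h8
        · rcases mul_eq_zero.mp h8 with h9 | h9
          · exact absurd h9 h2
          · exact absurd h9 hq
        · exact h8
    · exact h6
  obtain ⟨T, hT, hTd⟩ := grow Q v h2 hspan hconn' W hW' _ (dcm Q (v l) (v i)) (dcm_symm _ _ _)
    (hW' l i) ⟨l, hbase⟩ le_rfl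
  exact ⟨T * Q, hT, by rw [det_mul]; exact mul_ne_zero hTd hQd⟩

end Pool.Agent.VC
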