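import Pool.Agent.Lib_helper88.AC.Main3
import Pool.Agent.Lib_helper88.VC.Lin
import Pool.Agent.Lib_helper88.VC.Defs

/-!
# Vanishing cycles: the commutators
-/

set_option autoImplicit false

namespace Pool.Agent.VC

open Matrix NumberField
open Pool.Agent.TT Pool.Agent.TB Pool.Agent.TF Pool.Agent.RF Pool.Agent.TU Pool.Agent.UB Pool.Agent.AC

/-- The commutator of two elements near one. -/
theorem comm_near {G : Type*} [Group G] {O k : Type*} [CommRing O] [CommRing k] (res : O →+* k)
    {n : Type*} [Fintype n] [DecidableEq n] (Z : G →* Matrix n n O) (g h : G) (a b : O)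
    (N M : Matrix n n O) (ha : res a = 0) (hb : res b = 0) (hg : Z g = 1 + a • N)
    (hh : Z h = 1 + b • M) :
    ∃ P : Matrix n n O, Z (g * h * g⁻¹ * h⁻¹) = 1 + (a * b) • P ∧
      P.map res = N.map res * M.map res - M.map res * N.map res := by
  have h1 : Z (h * g) * Z (g⁻¹ * h⁻¹) = 1 := by
    rw [← map_mul, ← map_one Z]
    congr 1
    group
  have h2 : Z (g * h) - Z (h * g) = (a * b) • (N * M - M * N) := by
    rw [map_mul, map_mul, hg, hh]
    simp only [mul_add, add_mul, mul_one, one_mul, smul_mul_assoc, mul_smul_comm, smul_add,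
      smul_sub]
    module
  have h3 : (Z (g⁻¹ * h⁻¹)).map res = 1 := by
    have h4 : (Z (h * g)).map res = 1 := by
      rw [map_mul, Matrix.map_mul, hg, hh, map_add_matrix, map_add_matrix, map_one_matrix,
        map_smul_matrix, map_smul_matrix, ha, hb, zero_smul, zero_smul, add_zero, one_mul]
    have h5 := congrArg (fun Y => Y.map res) h1
    simp only [Matrix.map_mul, map_one_matrix] at h5
    rwa [h4, one_mul] at h5
  refine ⟨(N * M - M * N) * Z (g⁻¹ * h⁻¹), ?_, ?_⟩
  · rw [← smul_mul_assoc, ← h2, sub_mul, h1]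
    have h6 : Z (g * h * g⁻¹ * h⁻¹) = Z (g * h) * Z (g⁻¹ * h⁻¹) := by
      rw [← map_mul]
      congr 1
      group
    rw [h6]
    abel
  · rw [Matrix.map_mul, h3, mul_one]
    ext i j
    simp only [Matrix.map_apply, Matrix.sub_apply, map_sub, ← Matrix.map_mul]


/-- The double commutator of elements near one. -/
theorem comm2_near {G : Type*} [Group G] {O k : Type*} [CommRing O] [CommRing k] (res : O →+* k)
    {n : Type*} [Fintype n] [DecidableEq n] (Z : G →* Matrix n n O) (s s' : G) (L : O)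
    (N M : Matrix n n O) (hL : res L = 0) (hs : Z s = 1 + L • N) (hs' : Z s' = 1 + L • M) :
    ∃ (w : G) (P : Matrix n n O), Z w = 1 + (L ^ 3) • P ∧
      P.map res = comm2 (N.map res) (M.map res) := by
  obtain ⟨P, hP, hP'⟩ := comm_near res Z s s' L L N M hL hL hs hs'
  obtain ⟨P₂, hP₂, hP₂'⟩ := comm_near res Z s (s * s' * s⁻¹ * s'⁻¹) L (L * L) N P hL
    (by rw [map_mul, hL, zero_mul]) hs hP
  refine ⟨s * (s * s' * s⁻¹ * s'⁻¹) * s⁻¹ * (s * s' * s⁻¹ * s'⁻¹)⁻¹, P₂, ?_, ?_⟩
  · rw [hP₂]
    congr 2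
    ring
  · rw [hP₂', hP', comm2]

/-- The double commutator of block triangular matrices. -/
theorem comm2_blocks {k : Type*} [CommRing k] {y m : Type*} [Fintype y] [Fintype m]
    [DecidableEq y] [DecidableEq m] (N M : Matrix (y ⊕ m) (y ⊕ m) k) (hN : N.toBlocks₂₁ = 0)
    (hM : M.toBlocks₂₁ = 0) : (comm2 N M).toBlocks₂₁ = 0 ∧
      (comm2 N M).toBlocks₁₁ = comm2 N.toBlocks₁₁ M.toBlocks₁₁ := by
  rw [← fromBlocks_toBlocks N, ← fromBlocks_toBlocks M, hN, hM]
  simp only [comm2, fromBlocks_multiply, sub_eq_add_neg, fromBlocks_neg, fromBlocks_add,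
    toBlocks_fromBlocks₂₁, toBlocks_fromBlocks₁₁]
  constructor
  · simp
  · simp

/-- The residual upper left blocks of the elements near one to depth three. -/
def depth3 {G : Type*} [Group G] {O k : Type*} [CommRing O] [CommRing k] (res : O →+* k)
    {y m : Type*} [Fintype y] [Fintype m] [DecidableEq y] [DecidableEq m]
    (Z : G →* Matrix (y ⊕ m) (y ⊕ m) O) (L : O) (hL : res L = 0) :
    AddSubmonoid (Matrix y y k) where
  carrier := {A | ∃ (w : G) (P : Matrix (y ⊕ m) (y ⊕ m) O), Z w = 1 + (L ^ 3) • P ∧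
    (P.map res).toBlocks₂₁ = 0 ∧ (P.map res).toBlocks₁₁ = A}
  zero_mem' := by
    refine ⟨1, 0, ?_, ?_, ?_⟩
    · rw [map_one, smul_zero, add_zero]
    · ext i j
      simp [Matrix.toBlocks₂₁]
    · ext i j
      simp [Matrix.toBlocks₁₁]
  add_mem' := by
    rintro A A' ⟨w, P, hP, hP1, hP2⟩ ⟨w', P', hP', hP1', hP2'⟩
    have h1 : (P + P' + (L ^ 3) • (P * P')).map res = P.map res + P'.map res := by
      rw [map_add_matrix, map_add_matrix, map_smul_matrix, map_pow, hL]
      simp
    refine ⟨w * w', P + P' + (L ^ 3) • (P * P'), ?_, ?_, ?_⟩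
    · rw [map_mul, hP, hP']
      simp only [mul_add, add_mul, mul_one, one_mul, smul_mul_assoc, mul_smul_comm, smul_add]
      module
    · rw [h1]
      ext i j
      have h2 := congrFun (congrFun hP1 i) j
      have h3 := congrFun (congrFun hP1' i) j
      simp only [Matrix.toBlocks₂₁, Matrix.of_apply, Matrix.add_apply, Matrix.zero_apply] at h2 h3 ⊢
      rw [h2, h3, add_zero]
    · rw [h1, ← hP2, ← hP2']
      rfl

/-- **The deep element of a connected system of vanishing cycles.** -/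
theorem deep_of_cycles {G : Type} [Group G] {p : ℕ} [Fact p.Prime] (hp : p ≠ 2) {y m : ℕ}
    (hy : y ≠ 1) (X : G →* Matrix (Fin y ⊕ Fin m) (Fin y ⊕ Fin m) ℂ_[p]) (L : ℂ_[p])
    (hL0 : L ≠ 0) (hL1 : ‖L‖ < 1)
    (hL3 : ∀ (x : ℂ_[p]) (n : ℕ), 0 < n → x ^ n = 1 → ‖L‖ ^ 3 ≠ ‖1 - x‖)
    (hX : ∀ g i k, ‖X g i k‖ ≤ 1) (hV : VanishingCycles X L) : DeepElement X 0 := by
  classical
  obtain ⟨Q, r, s, v, ⟨hQs, hQi, hQd⟩, hvi, hPL, hspan, hconn⟩ := hV
  let O := nv ℂ_[p]
  let res : nv ℂ_[p] →+* IsLocalRing.ResidueField (nv ℂ_[p]) := IsLocalRing.residue (nv ℂ_[p])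
  have hchar : CharP (IsLocalRing.ResidueField (nv ℂ_[p])) p := residue_charP p
  have h2 : (2 : IsLocalRing.ResidueField (nv ℂ_[p])) ≠ 0 := by
    intro h
    have h3 : ((2 : ℕ) : IsLocalRing.ResidueField (nv ℂ_[p])) = 0 := by exact_mod_cast h
    rw [CharP.cast_eq_zero_iff (IsLocalRing.ResidueField (nv ℂ_[p])) p] at h3
    exact hp ((Nat.prime_dvd_prime_iff_eq (Fact.out : p.Prime) Nat.prime_two).mp h3)
  have hinj : ∀ Y Y' : Matrix (Fin y ⊕ Fin m) (Fin y ⊕ Fin m) (nv ℂ_[p]),
      Y.map (nv ℂ_[p]).subtype = Y'.map (nv ℂ_[p]).subtype → Y = Y' := by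
    intro Y Y' h
    ext i k
    exact congrFun (congrFun h i) k
  -- the integral representation
  let Z : G →* Matrix (Fin y ⊕ Fin m) (Fin y ⊕ Fin m) (nv ℂ_[p]) :=
    { toFun := fun g => fun i k => ⟨X g i k, hX g i k⟩
      map_one' := by
        apply hinj
        rw [map_one_matrix]
        exact map_one X
      map_mul' := fun g h => by
        apply hinj
        rw [Matrix.map_mul]
        exact map_mul X g h }
  have hZX : ∀ g, (Z g).map (nv ℂ_[p]).subtype = X g := fun g => rfl
  let L' : nv ℂ_[p] := ⟨L, hL1.le⟩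
  have hL' : res L' = 0 := residue_zero _ hL1
  -- the vectors and the form
  let v' : Fin r → Fin y → nv ℂ_[p] := fun i a => ⟨v i a, hvi i a⟩
  let Q' : Matrix (Fin y) (Fin y) (nv ℂ_[p]) := fun a b => ⟨Q a b, hQi a b⟩
  have hsys := connected hy (Q'.map res) ?_ ?_ (fun i a => res (v' i a)) h2 ?_ ?_
    (depth3 res Z L' hL') ?_
  · obtain ⟨A, ⟨w, P, hP, hP1, hP2⟩, hA⟩ := hsys
    refine ⟨w, L ^ 3, P.map (nv ℂ_[p]).subtype, ?_, pow_ne_zero 3 hL0, ?_, ?_, ?_, ?_, ?_⟩
    · rw [← hZX, hP, map_add_matrix, map_one_matrix, map_smul_matrix]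
      rfl
    · rw [norm_pow]
      exact pow_lt_one₀ (norm_nonneg _) hL1 (by norm_num)
    · intro x n hn hx
      rw [norm_pow]
      exact hL3 x n hn hx
    · intro i k
      exact (P i k).2
    · intro i k
      have h3 := congrFun (congrFun hP1 i) k
      by_contra h4
      have h5 : ‖((P (Sum.inr i) (Sum.inl k) : nv ℂ_[p]) : ℂ_[p])‖ = 1 :=
        le_antisymm (P _ _).2 (not_lt.mp h4)
      exact um_res_ne _ h5 h3
    · have h3 : (P.map (nv ℂ_[p]).subtype).toBlocks₁₁ = P.toBlocks₁₁.map (nv ℂ_[p]).subtype := rfl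
      rw [h3, Matrix.charpoly_map, Polynomial.coeff_map]
      apply um_norm_unit
      rw [← Polynomial.coeff_map, ← Matrix.charpoly_map]
      have h4 : P.toBlocks₁₁.map (IsLocalRing.residue (nv ℂ_[p])) = A := hP2
      rw [h4]
      intro h5
      apply hA
      rw [Matrix.det_eq_sign_charpoly_coeff, h5, mul_zero]
  · ext a b
    have h3 := congrFun (congrFun hQs a) b
    have h4 : Q' b a = Q' a b := Subtype.ext h3
    show res (Q' b a) = res (Q' a b)
    rw [h4]
  · have h3 : (Q'.map res).det = res Q'.det := (RingHom.map_det res Q').symm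
    rw [h3]
    apply um_res_ne
    have h4 : ((Q'.det : nv ℂ_[p]) : ℂ_[p]) = Q.det := RingHom.map_det (nv ℂ_[p]).subtype Q'
    rw [h4]
    exact hQd
  · intro z hz
    ext a
    obtain ⟨c, hc, hxc⟩ := hspan (Pi.single a 1) (by
      intro b
      by_cases h : b = a
      · subst h
        rw [Pi.single_eq_same, norm_one]
      · rw [Pi.single_eq_of_ne h, norm_zero]
        exact zero_le_one)
    let c' : Fin r → nv ℂ_[p] := fun i => ⟨c i, hc i⟩
    have h3 : ∀ b, (Pi.single a (1 : IsLocalRing.ResidueField (nv ℂ_[p])) :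
        Fin y → IsLocalRing.ResidueField (nv ℂ_[p])) b = ∑ i, res (c' i) * res (v' i b) := by
      intro b
      have h4 : res ((Pi.single a (1 : nv ℂ_[p]) : Fin y → nv ℂ_[p]) b -
          ∑ i, c' i * v' i b) = 0 := by
        apply residue_zero
        have h5 := hxc b
        have h6 : (((Pi.single a (1 : nv ℂ_[p]) : Fin y → nv ℂ_[p]) b -
            ∑ i, c' i * v' i b : nv ℂ_[p]) : ℂ_[p]) =
            (Pi.single a (1 : ℂ_[p]) - ∑ i, c i • v i : Fin y → ℂ_[p]) b := by
          rw [Pi.sub_apply, Finset.sum_apply]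
          push_cast
          congr 1
          by_cases h : b = a
          · subst h
            rw [Pi.single_eq_same, Pi.single_eq_same]
            rfl
          · rw [Pi.single_eq_of_ne h, Pi.single_eq_of_ne h]
            rfl
        rw [h6]
        exact h5
      rw [map_sub, sub_eq_zero, map_sum] at h4
      simp only [map_mul] at h4
      rw [← h4]
      by_cases h : b = a
      · subst h
        rw [Pi.single_eq_same, Pi.single_eq_same, map_one]
      · rw [Pi.single_eq_of_ne h, Pi.single_eq_of_ne h, map_zero]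
    have h4 : z a = ∑ b, (Pi.single a (1 : IsLocalRing.ResidueField (nv ℂ_[p])) :
        Fin y → IsLocalRing.ResidueField (nv ℂ_[p])) b * z b := by
      rw [Finset.sum_eq_single a]
      · rw [Pi.single_eq_same, one_mul]
      · intro b _ hb
        rw [Pi.single_eq_of_ne hb, zero_mul]
      · intro h
        exact absurd (Finset.mem_univ a) h
    rw [h4, Pi.zero_apply]
    simp only [h3, Finset.sum_mul]
    rw [Finset.sum_comm]
    apply Finset.sum_eq_zero
    intro i _
    have h5 := hz i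
    simp only [dotProduct] at h5
    simp only [mul_assoc]
    rw [← Finset.mul_sum, h5, mul_zero]
  · intro J hJ hJc
    obtain ⟨i, hi, l, hl, h3⟩ := hconn J hJ hJc
    refine ⟨i, hi, l, hl, ?_⟩
    have h4 : (fun a => res (v' i a)) ⬝ᵥ (Q'.map res *ᵥ fun a => res (v' l a)) =
        res (v' i ⬝ᵥ (Q' *ᵥ v' l)) := by
      simp only [dotProduct, mulVec, map_sum, map_mul, Matrix.map_apply]
    rw [h4]
    apply um_res_ne
    have h5 : ((v' i ⬝ᵥ (Q' *ᵥ v' l) : nv ℂ_[p]) : ℂ_[p]) = v i ⬝ᵥ (Q *ᵥ v l) := by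
      simp only [dotProduct, mulVec]
      push_cast
      rfl
    rw [h5]
    exact h3
  · intro i l
    have hN : ∀ i, ∃ N : Matrix (Fin y ⊕ Fin m) (Fin y ⊕ Fin m) (nv ℂ_[p]),
        Z (s i) = 1 + L' • N ∧ (N.map res).toBlocks₂₁ = 0 ∧
          (N.map res).toBlocks₁₁ = vecMulVec (fun a => res (v' i a)) (fun a => res (v' i a)) *
            Q'.map res := by
      intro i
      obtain ⟨N, hN1, hN2, hN3, hN4⟩ := hPL i
      let N' : Matrix (Fin y ⊕ Fin m) (Fin y ⊕ Fin m) (nv ℂ_[p]) := fun a b => ⟨N a b, hN2 a b⟩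
      refine ⟨N', ?_, ?_, ?_⟩
      · apply hinj
        rw [hZX, hN1, map_add_matrix, map_one_matrix]
        rfl
      · ext a b
        exact residue_zero _ (hN3 a b)
      · ext a b
        have h3 := hN4 (Pi.single b 1) (by
          intro c
          by_cases h : c = b
          · subst h
            rw [Pi.single_eq_same, norm_one]
          · rw [Pi.single_eq_of_ne h, norm_zero]
            exact zero_le_one) a
        have h4 : (N.toBlocks₁₁ *ᵥ Pi.single b 1 - (v i ⬝ᵥ (Q *ᵥ Pi.single b 1)) • v i) a =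
            N (Sum.inl a) (Sum.inl b) - (∑ c, v i c * Q c b) * v i a := by
          rw [Pi.sub_apply, Pi.smul_apply, smul_eq_mul, mulVec_single_one, mulVec_single_one]
          rfl
        rw [h4] at h3
        have h5 : res (N' (Sum.inl a) (Sum.inl b) - (∑ c, v' i c * Q' c b) * v' i a) = 0 := by
          apply residue_zero
          have h6 : ((N' (Sum.inl a) (Sum.inl b) - (∑ c, v' i c * Q' c b) * v' i a :
              nv ℂ_[p]) : ℂ_[p]) = N (Sum.inl a) (Sum.inl b) - (∑ c, v i c * Q c b) * v i a := by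
            push_cast
            rfl
          rw [h6]
          exact h3
        rw [map_sub, sub_eq_zero] at h5
        show res (N' (Sum.inl a) (Sum.inl b)) = _
        rw [h5, Matrix.mul_apply]
        simp only [map_mul, map_sum, vecMulVec_apply, Matrix.map_apply, Finset.sum_mul]
        apply Finset.sum_congr rfl
        intro c _
        ring
    obtain ⟨N, hN1, hN2, hN3⟩ := hN i
    obtain ⟨M, hM1, hM2, hM3⟩ := hN l
    obtain ⟨w, P, hP1, hP2⟩ := comm2_near res Z (s i) (s l) L' N M hL' hN1 hM1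
    obtain ⟨h3, h4⟩ := comm2_blocks (N.map res) (M.map res) hN2 hM2
    refine ⟨w, P, hP1, ?_, ?_⟩
    · rw [hP2, h3]
    · rw [hP2, h4, hN3, hM3]

end Pool.Agent.VC
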